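import Pool.Agent.Q5.SH.Stm
import Pool.Agent.Q25.SG.DG
import Pool.Agent.Q285.SG.EX
import Pool.Agent.Q290.SG.SM

/-!
# Project SH, job BCM: a `p`-ordinary CM type is big
-/

set_option autoImplicit false

namespace Pool.Agent.Q195.SH

open NumberField Module

theorem exists_aut (F K : Type) [Field F] [NumberField F] [Field K] [NumberField K] [Algebra F K]
    (h2 : finrank F K = 2) : ∃ c : K ≃ₐ[F] K, c ≠ 1 := by
  have hfd : FiniteDimensional F K := FiniteDimensional.of_finrank_pos (by omega)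
  have hq : Algebra.IsQuadraticExtension F K := ⟨h2⟩
  have hG : IsGalois F K := inferInstance
  have hcard : Nat.card (K ≃ₐ[F] K) = 2 := by
    rw [IsGalois.card_aut_eq_finrank, h2]
  by_contra hcon
  push Not at hcon
  have hs : Subsingleton (K ≃ₐ[F] K) := ⟨fun a b => by rw [hcon a, hcon b]⟩
  have := Nat.card_of_subsingleton (1 : K ≃ₐ[F] K)
  omega

theorem bcm : Pool.Agent.Q5.SH.S_BCM := by
  intro p _ F K _ _ _ _ _ _ _ h2 hU S hS hP
  obtain ⟨I, hI1, hI2⟩ := Pool.Agent.Q25.SG.dg Pool.Agent.Q285.SG.ps Pool.Agent.Q290.SG.ab p F K h2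
    hU S hS hP
  refine ⟨⟨I, hI1, ?_⟩, ?_⟩
  · rw [hI2]
    have h3 : NumberField.Units.rank K + 1 = finrank ℚ F := by
      have h4 : Fintype.card (InfinitePlace K) = InfinitePlace.nrComplexPlaces K := by
        rw [InfinitePlace.card_eq_nrRealPlaces_add_nrComplexPlaces,
          IsTotallyComplex.nrRealPlaces_eq_zero, zero_add]
      have h5 := IsTotallyComplex.finrank K
      have h6 : finrank ℚ F * finrank F K = finrank ℚ K := finrank_mul_finrank ℚ F K
      have h7 : 0 < finrank ℚ F := finrank_pos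
      unfold NumberField.Units.rank
      rw [h4]
      rw [h2] at h6
      omega
    rw [h3]
  · obtain ⟨c, hc⟩ := exists_aut F K h2
    obtain ⟨τ⟩ : Nonempty (K →+* ℂ_[p]) :=
      ⟨((IsAlgClosed.lift : K →ₐ[ℚ] ℂ_[p])).toRingHom⟩
    by_cases h : τ ∈ S
    · exact ⟨τ.comp (c : K →+* K), (hS c hc τ).1 h⟩
    · exact ⟨τ, h⟩

end Pool.Agent.Q195.SH
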